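import Pool.Agent.H2.SPL.ClassSpectrumProof

set_option autoImplicit false

namespace Pool.Agent.Results.MP_543b9c_al.ClassSpectrum

/-! ### Formal polynomials (used in the proofs only) -/

/-- For all `2 ≤ n ≤ K` there is a finite loop of central nilpotence class exactly `n` and
supernilpotence class exactly `K`. In particular no function `f` satisfies
`clsn Q ≤ f (clcn Q)` for all supernilpotent loops `Q`. -/
theorem result (n K : ℕ) (hn : 2 ≤ n) (hK : n ≤ K) :
    ∃ (Q : Type) (_ : Loop Q), Finite Q ∧ clcn Q = (n : ℕ∞) ∧ clsn Q = (K : ℕ∞) :=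
  result_proof n K hn hK

end Pool.Agent.Results.MP_543b9c_al.ClassSpectrum
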